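import Mathlib

/-!
# MP_e20a4f_an: injective Woronowicz morphisms out of Z* algebras

Full positive answer to Q1. Let `f : A → M(B)` be an injective Woronowicz morphism and let `A` be
a Z* algebra. Every `b` in `B` is the limit of a sequence of finite sums of elements `f(a) c`; let
`a_k` be a sequence in `A` which contains all the elements `a` used, and let `a` be the convergent
sum of suitable positive multiples of the elements `a_k a_k^*`. There is `y ≠ 0` in `A` with
`a y = 0`, so `y^* a_k = 0` for all `k` and hence `f(y^*) b = 0`. As `f(y^*) ≠ 0`, some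
`c f(y^*)` is a nonzero element of `B`, and it annihilates `b` from the left.
-/

set_option autoImplicit false

open Filter Topology
open scoped MultiplierAlgebra

namespace Pool.Agent.Results.MP_e20a4f_an.ZStarInherited

/-- `x` is a zero divisor: `x y = 0` or `y x = 0` for some nonzero `y`. -/
def IsZeroDivisor {C : Type*} [NonUnitalCStarAlgebra C] (x : C) : Prop :=
  ∃ y : C, y ≠ 0 ∧ (x * y = 0 ∨ y * x = 0)

/-- A C*-algebra is a Z* algebra if every positive element is a zero divisor. The positive
elements of a C*-algebra are the elements `c^* c`. -/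
def IsZStar (C : Type*) [NonUnitalCStarAlgebra C] : Prop :=
  ∀ x : C, (∃ c : C, x = star c * c) → IsZeroDivisor x

/-- A Woronowicz morphism from `A` to `B` is a `*`-homomorphism `f` from `A` to the multiplier
algebra `𝓜(ℂ, B)` such that the linear span of all `f(a) b` is dense in `B`. In Mathlib, the
multiplier algebra consists of the double centralizers `m = (m.fst, m.snd)`, where
`m.fst b = m b` and `m.snd b = b m`. -/
def IsWoronowicz {A B : Type*} [NonUnitalCStarAlgebra A] [NonUnitalCStarAlgebra B]
    (f : A →⋆ₙₐ[ℂ] 𝓜(ℂ, B)) : Prop :=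
  Dense (Submodule.span ℂ {c : B | ∃ (a : A) (b : B), c = (f a).fst b} : Set B)

/-- For a sequence `a_k` there is a positive element `a` such that `a y = 0` implies that
`y^* a_k = 0` for all `k`. -/
lemma exists_dominating {A : Type*} [NonUnitalCStarAlgebra A] (a : ℕ → A) :
    ∃ c : A, ∀ y : A, (star c * c) * y = 0 → ∀ k, star y * a k = 0 := by
  let i1 : PartialOrder A := CStarAlgebra.spectralOrder A
  have i2 : StarOrderedRing A := CStarAlgebra.spectralOrderedRing A
  let w : ℕ → ℝ := fun k => (1 / 2) ^ k * (1 + ‖a k * star (a k)‖)⁻¹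
  have hw : ∀ k, 0 < w k := fun k => by positivity
  let s : ℕ → A := fun k => w k • (a k * star (a k))
  have hs0 : ∀ k, 0 ≤ s k := fun k => smul_nonneg (hw k).le (mul_star_self_nonneg _)
  have hsum : Summable s := by
    refine Summable.of_norm_bounded (g := fun k => (1 / 2 : ℝ) ^ k) summable_geometric_two ?_
    intro k
    rw [norm_smul, Real.norm_eq_abs, abs_of_pos (hw k)]
    have h1 : (1 + ‖a k * star (a k)‖)⁻¹ * ‖a k * star (a k)‖ ≤ 1 := by
      rw [inv_mul_le_iff₀ (by positivity)]
      linarith
    calc w k * ‖a k * star (a k)‖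
        = (1 / 2) ^ k * ((1 + ‖a k * star (a k)‖)⁻¹ * ‖a k * star (a k)‖) := by
          simp only [w]; ring
      _ ≤ (1 / 2) ^ k * 1 := mul_le_mul_of_nonneg_left h1 (by positivity)
      _ = _ := mul_one _
  obtain ⟨c, hc⟩ := CStarAlgebra.nonneg_iff_eq_star_mul_self.1 (tsum_nonneg hs0)
  refine ⟨c, fun y hy k => ?_⟩
  rw [← hc] at hy
  have h1 : s k ≤ ∑' k, s k := hsum.le_tsum k fun j _ => hs0 j
  have h2 : star y * s k * y ≤ star y * (∑' k, s k) * y := star_left_conjugate_le_conjugate h1 y
  rw [mul_assoc (star y) (∑' k, s k) y, hy, mul_zero] at h2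
  have h3 : 0 ≤ star y * s k * y := star_left_conjugate_nonneg (hs0 k) y
  have h4 : star y * s k * y = 0 := le_antisymm h2 h3
  have h5 : w k • ((star y * a k) * star (star y * a k)) = 0 := by
    rw [← h4, star_mul, star_star]
    simp only [s, mul_smul_comm, smul_mul_assoc, mul_assoc]
  rcases smul_eq_zero.1 h5 with h | h
  · exact absurd h (hw k).ne'
  · exact CStarRing.mul_star_self_eq_zero_iff _ |>.1 h

/-- If `A` is a Z* algebra and there is an injective Woronowicz morphism from `A` to `B`, then `B`
is a Z* algebra. -/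
theorem result {A B : Type*} [NonUnitalCStarAlgebra A] [NonUnitalCStarAlgebra B]
    (hA : IsZStar A) (f : A →⋆ₙₐ[ℂ] 𝓜(ℂ, B)) (hf : Function.Injective f)
    (hW : IsWoronowicz f) : IsZStar B := by
  rintro b -
  -- elements of the span which tend to `b`
  have hb : b ∈ closure (Submodule.span ℂ {c : B | ∃ (a : A) (b : B), c = (f a).fst b} : Set B) :=
    hW b
  obtain ⟨s, hs, hlim⟩ := mem_closure_iff_seq_limit.1 hb
  -- countably many elements of `A` are used
  have hfin : ∀ n, ∃ t : Finset A,
      s n ∈ Submodule.span ℂ {c : B | ∃ a ∈ t, ∃ b : B, c = (f a).fst b} := by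
    classical
    intro n
    have key : ∀ x ∈ Submodule.span ℂ {c : B | ∃ (a : A) (b : B), c = (f a).fst b},
        ∃ t : Finset A, x ∈ Submodule.span ℂ {c : B | ∃ a ∈ t, ∃ b : B, c = (f a).fst b} := by
      intro x hx
      induction hx using Submodule.span_induction with
      | mem x hx =>
        obtain ⟨a, b, rfl⟩ := hx
        exact ⟨{a}, Submodule.subset_span ⟨a, Finset.mem_singleton_self a, b, rfl⟩⟩
      | zero => exact ⟨∅, Submodule.zero_mem _⟩
      | add x y _ _ hx hy =>
        obtain ⟨t, ht⟩ := hx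
        obtain ⟨u, hu⟩ := hy
        refine ⟨t ∪ u, Submodule.add_mem _ ?_ ?_⟩
        · refine Submodule.span_mono ?_ ht
          rintro c ⟨a, ha, b, hc⟩
          exact ⟨a, Finset.mem_union_left _ ha, b, hc⟩
        · refine Submodule.span_mono ?_ hu
          rintro c ⟨a, ha, b, hc⟩
          exact ⟨a, Finset.mem_union_right _ ha, b, hc⟩
      | smul z x _ hx =>
        obtain ⟨t, ht⟩ := hx
        exact ⟨t, Submodule.smul_mem _ _ ht⟩
    exact key _ (hs n)
  choose t ht using hfin
  have hcount : (⋃ n, (t n : Set A)).Countable := Set.countable_iUnion fun n => (t n).countable_toSet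
  obtain ⟨a, ha⟩ : ∃ a : ℕ → A, (⋃ n, (t n : Set A)) ⊆ Set.range a := by
    rcases Set.eq_empty_or_nonempty (⋃ n, (t n : Set A)) with h | h
    · exact ⟨fun _ => 0, by rw [h]; exact Set.empty_subset _⟩
    · obtain ⟨a, ha⟩ := hcount.exists_eq_range h
      exact ⟨a, ha.subset⟩
  obtain ⟨c, hc⟩ := exists_dominating a
  obtain ⟨y, hy0, hy⟩ := hA (star c * c) ⟨c, rfl⟩
  -- we may assume `(c^* c) y = 0`
  obtain ⟨z, hz0, hz⟩ : ∃ z : A, z ≠ 0 ∧ (star c * c) * z = 0 := by
    rcases hy with h | h
    · exact ⟨y, hy0, h⟩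
    · refine ⟨star y, star_ne_zero.2 hy0, ?_⟩
      have := congrArg star h
      rwa [star_mul, star_mul, star_star, star_zero] at this
  have hk := hc z hz
  set m : 𝓜(ℂ, B) := f (star z) with hm
  have hm0 : m ≠ 0 := by
    intro h
    rw [hm, ← map_zero f] at h
    exact star_ne_zero.2 hz0 (hf h)
  have hzero : ∀ n, m.fst (s n) = 0 := by
    intro n
    have key : ∀ x ∈ Submodule.span ℂ {c : B | ∃ a ∈ t n, ∃ b : B, c = (f a).fst b},
        m.fst x = 0 := by
      intro x hx
      induction hx using Submodule.span_induction with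
      | mem x hx =>
        obtain ⟨a', ha', b', rfl⟩ := hx
        obtain ⟨k, hk'⟩ := ha (Set.mem_iUnion.2 ⟨n, ha'⟩)
        have h1 : (m * f a').fst b' = 0 := by
          rw [hm, ← map_mul, ← hk', hk k, map_zero]
          rfl
        exact h1
      | zero => exact map_zero _
      | add x y _ _ hx hy => rw [map_add, hx, hy, add_zero]
      | smul w x _ hx => rw [map_smul, hx, smul_zero]
    exact key _ (ht n)
  have hmb : m.fst b = 0 := by
    have h1 : Tendsto (fun n => m.fst (s n)) atTop (𝓝 (m.fst b)) :=
      (m.fst.continuous.tendsto b).comp hlim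
    simp only [hzero] at h1
    exact tendsto_nhds_unique h1 tendsto_const_nhds
  -- some `c' m` is nonzero
  have hsnd : ∃ c' : B, m.snd c' ≠ 0 := by
    by_contra hcon
    push Not at hcon
    apply hm0
    have hfst : ∀ x, m.fst x = 0 := by
      intro x
      have h1 := m.central (star (m.fst x)) x
      rw [hcon, zero_mul] at h1
      exact (CStarRing.star_mul_self_eq_zero_iff _).1 h1.symm
    refine DoubleCentralizer.ext ℂ B _ _ (Prod.ext ?_ ?_)
    · ext x; exact hfst x
    · ext x; exact hcon x
  obtain ⟨c', hc'⟩ := hsnd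
  exact ⟨m.snd c', hc', Or.inr (by rw [m.central, hmb, mul_zero])⟩

end Pool.Agent.Results.MP_e20a4f_an.ZStarInherited
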